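import Mathlib

/-!
Cauchy-Binet formula with weights.
-/

open Finset Matrix

namespace Pool.Agent.Helper51.U2

variable {R : Type*} [CommRing R] {r n : ℕ}

/-- the maximal minor of the `r × n` matrix `A` with column set `S`
(`0` if `S` does not have exactly `r` elements) -/
noncomputable def minor (A : Matrix (Fin r) (Fin n) R) (S : Finset (Fin n)) : R :=
  if h : S.card = r then (A.submatrix id (S.orderEmbOfFin h)).det else 0

theorem minor_eq {A : Matrix (Fin r) (Fin n) R} {S : Finset (Fin n)} (h : S.card = r) :
    minor A S = (A.submatrix id (S.orderEmbOfFin h)).det := by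
  unfold minor; rw [dif_pos h]

theorem minor_map {T : Type*} [CommRing T] (φ : R →+* T) (A : Matrix (Fin r) (Fin n) R)
    (S : Finset (Fin n)) : minor (A.map φ) S = φ (minor A S) := by
  unfold minor
  split_ifs with h
  · rw [RingHom.map_det]
    congr 1
  · rw [map_zero]

theorem det_mul_eq_sum_fun (A : Matrix (Fin r) (Fin n) R) (B : Matrix (Fin n) (Fin r) R) :
    (A * B).det = ∑ f : Fin r → Fin n, (∏ i, B (f i) i) * (A.submatrix id f).det := by
  have h1 : (A * B).det = ∑ σ : Equiv.Perm (Fin r), ∑ f : Fin r → Fin n,
      ((Equiv.Perm.sign σ : ℤ) : R) * ∏ i, (A (σ i) (f i) * B (f i) i) := by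
    rw [Matrix.det_apply']
    refine Finset.sum_congr rfl fun σ _ => ?_
    have : ∏ i, (A * B) (σ i) i = ∑ f : Fin r → Fin n, ∏ i, (A (σ i) (f i) * B (f i) i) := by
      simp only [Matrix.mul_apply]
      rw [Finset.prod_univ_sum]
      simp
    rw [this, Finset.mul_sum]
  rw [h1, Finset.sum_comm]
  refine Finset.sum_congr rfl fun f _ => ?_
  rw [Matrix.det_apply', Finset.mul_sum]
  refine Finset.sum_congr rfl fun σ _ => ?_
  rw [Finset.prod_mul_distrib]
  simp only [Matrix.submatrix_apply, id]
  ring

/-- subsets of size `r` with a permutation correspond to injective maps -/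
private noncomputable def enumMap (p : {S : Finset (Fin n) // S.card = r} × Equiv.Perm (Fin r)) :
    {f : Fin r → Fin n // Function.Injective f} :=
  ⟨fun i => p.1.1.orderEmbOfFin p.1.2 (p.2 i), by
    intro i j hij
    exact p.2.injective ((p.1.1.orderEmbOfFin p.1.2).injective hij)⟩

private theorem enumMap_bij : Function.Bijective (enumMap (r := r) (n := n)) := by
  classical
  constructor
  · rintro ⟨⟨S, hS⟩, σ⟩ ⟨⟨T, hT⟩, τ⟩ h
    have h' : (fun i => S.orderEmbOfFin hS (σ i)) = fun i => T.orderEmbOfFin hT (τ i) :=
      congrArg Subtype.val h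
    have hr : ∀ (U : Finset (Fin n)) (hU : U.card = r) (ρ : Equiv.Perm (Fin r)),
        Set.range (fun i => U.orderEmbOfFin hU (ρ i)) = (U : Set (Fin n)) := by
      intro U hU ρ
      have : (fun i => U.orderEmbOfFin hU (ρ i)) = (U.orderEmbOfFin hU) ∘ ρ := rfl
      rw [this, Set.range_comp, ρ.range_eq_univ, Set.image_univ, Finset.range_orderEmbOfFin]
    have hST : S = T := by
      apply Finset.coe_injective
      rw [← hr S hS σ, ← hr T hT τ, h']
    subst hST
    have : σ = τ := by
      ext i
      have := congrFun h' i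
      exact congrArg _ ((S.orderEmbOfFin hS).injective this)
    rw [this]
  · rintro ⟨f, hf⟩
    have hc : (Finset.univ.image f).card = r := by
      rw [Finset.card_image_of_injective _ hf, Finset.card_univ, Fintype.card_fin]
    have hex : ∀ i, ∃ j, (Finset.univ.image f).orderEmbOfFin hc j = f i := by
      intro i
      have : f i ∈ Set.range ((Finset.univ.image f).orderEmbOfFin hc) := by
        rw [Finset.range_orderEmbOfFin]
        simp
      exact this
    choose g hg using hex
    have hgi : Function.Injective g := by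
      intro i j hij
      apply hf
      rw [← hg i, ← hg j, hij]
    refine ⟨(⟨Finset.univ.image f, hc⟩, Equiv.ofBijective g
      (Finite.injective_iff_bijective.mp hgi)), ?_⟩
    apply Subtype.ext
    funext i
    exact hg i

private theorem sum_restrict {α M : Type*} [Fintype α] [AddCommMonoid M] (p : α → Prop)
    [DecidablePred p] (g : α → M) (hg : ∀ a, ¬ p a → g a = 0) :
    ∑ a, g a = ∑ a : {a // p a}, g a := by
  rw [← Fintype.sum_subtype_add_sum_subtype p g]
  rw [Finset.sum_eq_zero (s := (Finset.univ : Finset {a // ¬ p a})) (fun a _ => hg a.1 a.2),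
    add_zero]

/-- Cauchy-Binet formula -/
theorem cauchyBinet (A : Matrix (Fin r) (Fin n) R) (B : Matrix (Fin r) (Fin n) R) :
    (A * Bᵀ).det = ∑ S : Finset (Fin n), minor A S * minor B S := by
  classical
  rw [det_mul_eq_sum_fun]
  have h0 : ∀ f : Fin r → Fin n, ¬ Function.Injective f →
      (∏ i, Bᵀ (f i) i) * (A.submatrix id f).det = 0 := by
    intro f hf
    obtain ⟨i, j, hij, hne⟩ : ∃ i j, f i = f j ∧ i ≠ j := by
      simpa [Function.Injective] using hf
    rw [Matrix.det_zero_of_column_eq hne (fun k => by simp [hij]), mul_zero]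
  rw [sum_restrict (fun f : Fin r → Fin n => Function.Injective f) _ h0]
  rw [sum_restrict (fun S : Finset (Fin n) => S.card = r) (fun S => minor A S * minor B S)
    (fun S hS => by unfold minor; rw [dif_neg hS, zero_mul])]
  rw [← Function.Bijective.sum_comp (enumMap_bij (r := r) (n := n))
    (fun f : {f : Fin r → Fin n // Function.Injective f} =>
      (∏ i, Bᵀ (f.1 i) i) * (A.submatrix id f.1).det)]
  rw [Fintype.sum_prod_type]
  refine Finset.sum_congr rfl fun S _ => ?_
  obtain ⟨S, hS⟩ := S
  rw [minor_eq hS, minor_eq hS, ← Matrix.det_transpose (B.submatrix id (S.orderEmbOfFin hS)),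
    Matrix.det_apply' (B.submatrix id (S.orderEmbOfFin hS))ᵀ, Finset.mul_sum]
  refine Finset.sum_congr rfl fun σ _ => ?_
  have e1 : (A.submatrix id (fun i => S.orderEmbOfFin hS (σ i))).det =
      ((Equiv.Perm.sign σ : ℤ) : R) * (A.submatrix id (S.orderEmbOfFin hS)).det := by
    rw [← Matrix.det_permute' σ (A.submatrix id (S.orderEmbOfFin hS))]
    rfl
  show (∏ i, Bᵀ (S.orderEmbOfFin hS (σ i)) i) *
    (A.submatrix id (fun i => S.orderEmbOfFin hS (σ i))).det = _
  rw [e1]
  simp only [Matrix.transpose_apply, Matrix.submatrix_apply, id]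
  ring

/-- minors of a matrix with scaled columns -/
theorem minor_mul_diagonal (A : Matrix (Fin r) (Fin n) R) (w : Fin n → R)
    (S : Finset (Fin n)) : minor (A * Matrix.diagonal w) S = (∏ e ∈ S, w e) * minor A S := by
  unfold minor
  split_ifs with h
  · have : (A * Matrix.diagonal w).submatrix id (S.orderEmbOfFin h) =
        Matrix.of fun i j => w (S.orderEmbOfFin h j) * (A.submatrix id (S.orderEmbOfFin h)) i j := by
      ext i j
      simp [Matrix.mul_diagonal, mul_comm]
    rw [this, Matrix.det_mul_row]
    congr 1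
    rw [← Finset.prod_image (s := Finset.univ) (g := S.orderEmbOfFin h) (f := w)
      (fun i _ j _ hij => (S.orderEmbOfFin h).injective hij)]
    congr 1
    ext x
    have := Finset.range_orderEmbOfFin S h
    constructor
    · intro hx
      simp only [Finset.mem_image, Finset.mem_univ, true_and] at hx
      obtain ⟨i, rfl⟩ := hx
      exact Finset.orderEmbOfFin_mem S h i
    · intro hx
      have hx' : x ∈ Set.range (S.orderEmbOfFin h) := by rw [this]; exact hx
      obtain ⟨i, hi⟩ := hx'
      simp only [Finset.mem_image, Finset.mem_univ, true_and]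
      exact ⟨i, hi⟩
  · rw [mul_zero]

end Pool.Agent.Helper51.U2
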