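import Pool.Agent.Helper51.U2.CB

/-!
Five determinants count the bases of 2-uniform matroids with the hook property.
-/

open Finset Matrix MvPolynomial

namespace Pool.Agent.Helper51.U2

variable {r n : ℕ}

/-- the ring `ℤ[s,t]`; in the partial field `𝕌₂` put `α = s`, `β = 1/t`, so that
`1 - α = 1 - s`, `1 - β = -(1 - t)/t`, `α - β = -(1 - st)/t` -/
abbrev Rst : Type := MvPolynomial (Fin 2) ℤ

/-- the variable `s = α` -/
noncomputable def sv : Rst := X 0
/-- the variable `t = 1/β` -/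
noncomputable def tv : Rst := X 1

/-- `p = ± s^a t^b (1-s)^c (1-t)^d (1-st)^e` for some `c, d, e` -/
def IsU2 (p : Rst) (a b : ℕ) : Prop :=
  ∃ c d e : ℕ, ∃ ε : ℤ, (ε = 1 ∨ ε = -1) ∧
    p = C ε * (sv ^ a * tv ^ b * (1 - sv) ^ c * (1 - tv) ^ d * (1 - sv * tv) ^ e)

/-- every nonzero maximal minor is `± s^a t^b (1-s)^c (1-t)^d (1-st)^e` with `a = 0` or `b ≤ 1` -/
def IsHook (A : Matrix (Fin r) (Fin n) Rst) : Prop :=
  ∀ S : Finset (Fin n), minor A S = 0 ∨ ∃ a b : ℕ, (a = 0 ∨ b ≤ 1) ∧ IsU2 (minor A S) a b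

/-- evaluation at `s = x`, `t = y` -/
noncomputable def ev (x y : ℂ) : Rst →+* ℂ := eval₂Hom (Int.castRingHom ℂ) ![x, y]

/-- `det (A(x,y) · diag(w) · A(x,y)ᴴ)` -/
noncomputable def gram (A : Matrix (Fin r) (Fin n) Rst) (w : Fin n → ℂ) (x y : ℂ) : ℂ :=
  (A.map (ev x y) * Matrix.diagonal w * (A.map (ev x y))ᴴ).det

/-- a primitive sixth root of unity -/
noncomputable def zeta : ℂ := ⟨1 / 2, Real.sqrt 3 / 2⟩

theorem gram_eq (A : Matrix (Fin r) (Fin n) Rst) (w : Fin n → ℂ) (x y : ℂ) :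
    gram A w x y = ∑ S : Finset (Fin n), (∏ e ∈ S, w e) *
      (ev x y (minor A S) * (starRingEnd ℂ) (ev x y (minor A S))) := by
  unfold gram
  have h : (A.map (ev x y))ᴴ = ((A.map (ev x y)).map (starRingEnd ℂ))ᵀ := by
    ext i j
    simp
  rw [h, cauchyBinet]
  refine Finset.sum_congr rfl fun S _ => ?_
  rw [minor_mul_diagonal, minor_map (starRingEnd ℂ), minor_map (ev x y)]
  ring

theorem ev_form (x y : ℂ) (ε : ℤ) (a b c d e : ℕ) :
    ev x y (C ε * (sv ^ a * tv ^ b * (1 - sv) ^ c * (1 - tv) ^ d * (1 - sv * tv) ^ e)) =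
      (ε : ℂ) * (x ^ a * y ^ b * (1 - x) ^ c * (1 - y) ^ d * (1 - x * y) ^ e) := by
  have hC : ev x y (C ε) = (ε : ℂ) := by
    unfold ev
    rw [coe_eval₂Hom, eval₂_C]
    rfl
  have hs : ev x y sv = x := by unfold ev sv; simp
  have ht : ev x y tv = y := by unfold ev tv; simp
  simp only [map_mul, map_pow, map_sub, map_one, hC, hs, ht]

theorem ev_norm {p : Rst} {a b : ℕ} (x y : ℂ) (h1 : (1 - x) * (starRingEnd ℂ) (1 - x) = 1)
    (h2 : (1 - y) * (starRingEnd ℂ) (1 - y) = 1)
    (h3 : (1 - x * y) * (starRingEnd ℂ) (1 - x * y) = 1) (hp : IsU2 p a b) :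
    ev x y p * (starRingEnd ℂ) (ev x y p) =
      (x * (starRingEnd ℂ) x) ^ a * (y * (starRingEnd ℂ) y) ^ b := by
  obtain ⟨c, d, e, ε, hε, rfl⟩ := hp
  have e1 := ev_form x y ε a b c d e
  have e2 : (ε : ℂ) * (starRingEnd ℂ) (ε : ℂ) = 1 := by
    rcases hε with h | h <;> subst h <;> simp
  rw [e1]
  simp only [map_mul, map_pow]
  calc _ = ((ε : ℂ) * (starRingEnd ℂ) (ε : ℂ)) * (x * (starRingEnd ℂ) x) ^ a *
        (y * (starRingEnd ℂ) y) ^ b * ((1 - x) * (starRingEnd ℂ) (1 - x)) ^ c *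
        ((1 - y) * (starRingEnd ℂ) (1 - y)) ^ d *
        ((1 - x * y) * (starRingEnd ℂ) (1 - x * y)) ^ e := by
        simp only [mul_pow]
        ring
    _ = _ := by rw [e2, h1, h2, h3]; simp

theorem sqrt3 : ((Real.sqrt 3 : ℝ) : ℂ) ^ 2 = 3 := by
  rw [← Complex.ofReal_pow, Real.sq_sqrt (by norm_num)]
  norm_num

theorem zeta_conj : (starRingEnd ℂ) zeta = 1 - zeta := by
  apply Complex.ext
  · simp [zeta]; norm_num
  · simp [zeta]

theorem zeta_mul : zeta * (1 - zeta) = 1 := by
  have h3 : Real.sqrt 3 * Real.sqrt 3 = 3 := Real.mul_self_sqrt (by norm_num)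
  apply Complex.ext
  · simp [zeta]; nlinarith
  · simp [zeta]; ring

/-- basis generating polynomial of a 2-uniform matroid with the hook property -/
theorem hook_formula (A : Matrix (Fin r) (Fin n) Rst) (hA : IsHook A) (w : Fin n → ℂ) :
    3 * ∑ S ∈ (Finset.univ.filter fun S : Finset (Fin n) => minor A S ≠ 0), ∏ e ∈ S, w e =
      2 * gram A w zeta 0 + 3 * gram A w 0 zeta - 2 * gram A w 0 0
        + gram A w zeta (2 - zeta) - gram A w 0 (2 - zeta) := by
  rw [gram_eq, gram_eq, gram_eq, gram_eq, gram_eq]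
  rw [Finset.sum_filter]
  simp only [Finset.mul_sum]
  rw [← Finset.sum_add_distrib, ← Finset.sum_sub_distrib, ← Finset.sum_add_distrib,
    ← Finset.sum_sub_distrib]
  refine Finset.sum_congr rfl fun S _ => ?_
  have hz := zeta_mul
  have hc := zeta_conj
  rcases hA S with h0 | ⟨a, b, hab, hU⟩
  · rw [if_neg (by rw [h0]; simp)]
    rw [h0]
    simp
  · have hne : minor A S ≠ 0 := by
      obtain ⟨c, d, e, ε, hε, hp⟩ := hU
      intro h0
      have h1 : ev 2 3 (minor A S) = 0 := by rw [h0, map_zero]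
      rw [hp] at h1
      have e1 := ev_form 2 3 ε a b c d e
      rw [e1] at h1
      have hε' : (ε : ℂ) ≠ 0 := by rcases hε with h | h <;> subst h <;> simp
      have h2 : (1 - 2 : ℂ) ≠ 0 := by norm_num
      have h3 : (1 - 3 : ℂ) ≠ 0 := by norm_num
      have h4 : (1 - 2 * 3 : ℂ) ≠ 0 := by norm_num
      have h5 : (2 : ℂ) ≠ 0 := by norm_num
      have h6 : (3 : ℂ) ≠ 0 := by norm_num
      exact (mul_ne_zero hε' (mul_ne_zero (mul_ne_zero (mul_ne_zero (mul_ne_zero
        (pow_ne_zero _ h5) (pow_ne_zero _ h6)) (pow_ne_zero _ h2)) (pow_ne_zero _ h3))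
        (pow_ne_zero _ h4))) h1
    rw [if_pos hne]
    have n1 := ev_norm (p := minor A S) zeta 0
      (by simp only [map_sub, map_one, hc]; linear_combination hz) (by simp) (by simp) hU
    have n2 := ev_norm (p := minor A S) 0 zeta (by simp)
      (by simp only [map_sub, map_one, hc]; linear_combination hz) (by simp) hU
    have n3 := ev_norm (p := minor A S) 0 0 (by simp) (by simp) (by simp) hU
    have h2 : (starRingEnd ℂ) (2 : ℂ) = 2 := by
      apply Complex.ext <;> simp
    have n4 := ev_norm (p := minor A S) zeta (2 - zeta)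
      (by simp only [map_sub, map_one, hc]; linear_combination hz)
      (by simp only [map_sub, map_one, hc, h2]; linear_combination hz)
      (by simp only [map_sub, map_one, map_mul, hc, h2]
          linear_combination (-(zeta ^ 2 - zeta - 1)) * hz) hU
    have n5 := ev_norm (p := minor A S) 0 (2 - zeta) (by simp)
      (by simp only [map_sub, map_one, hc, h2]; linear_combination hz) (by simp) hU
    rw [n1, n2, n3, n4, n5]
    simp only [map_sub, map_zero, map_one, hc, h2, mul_zero, zero_mul]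
    have v1 : zeta * (1 - zeta) = 1 := hz
    have v2 : (2 - zeta) * (2 - (1 - zeta)) = 3 := by linear_combination hz
    rw [v1, v2, one_pow]
    rcases hab with ha | hb
    · subst ha
      simp only [pow_zero, one_mul, mul_one]
      ring
    · rcases Nat.eq_zero_or_pos a with ha | ha
      · subst ha
        simp only [pow_zero, one_mul, mul_one]
        ring
      · rw [zero_pow ha.ne']
        interval_cases b
        · simp only [pow_zero, mul_one, mul_zero]
          ring
        · simp only [pow_one, mul_zero, zero_mul]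
          ring

end Pool.Agent.Helper51.U2
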